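import Mathlib

/-!
# MP_302605_an: the functional `J_Ω[K] = h_K(Ω) |K°|^{1/N}` has a minimizer in every dimension
-/

set_option autoImplicit false

open MeasureTheory Filter Topology Set Metric
open scoped ENNReal Pointwise

namespace Pool.Agent.Results.MP_302605_an.CheegerMinimizer

/-- `𝒦_N`: non-empty, open, bounded, convex sets, symmetric about the origin. -/
structure IsBody {N : ℕ} (K : Set (Fin N → ℝ)) : Prop where
  nonempty : K.Nonempty
  isOpen : IsOpen K
  bdd : Bornology.IsBounded K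
  convex : Convex ℝ K
  symm : ∀ x ∈ K, -x ∈ K

/-- `K° = {x : x · y < 1 for all y ∈ K}`. -/
def polarSet {N : ℕ} (K : Set (Fin N → ℝ)) : Set (Fin N → ℝ) := {x | ∀ y ∈ K, x ⬝ᵥ y < 1}

/-- The divergence of a vector field. -/
noncomputable def divg {N : ℕ} (T : (Fin N → ℝ) → (Fin N → ℝ)) (x : Fin N → ℝ) : ℝ :=
  ∑ i, fderiv ℝ T x (Pi.single i 1) i

/-- The anisotropic perimeter `P_K(E)`, in its distributional form: the supremum of
`∫_E div T` over the `C¹` compactly supported vector fields `T` with values in the closure of `K`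
(for sets of finite perimeter this is `∫_{∂*E} Φ_K°(ν_E) dH^{N-1}`; otherwise it is `+∞`). -/
noncomputable def perim {N : ℕ} (K E : Set (Fin N → ℝ)) : ℝ≥0∞ :=
  ⨆ (T : (Fin N → ℝ) → (Fin N → ℝ)) (_ : ContDiff ℝ 1 T ∧ HasCompactSupport T ∧
    ∀ x, T x ∈ closure K), ENNReal.ofReal (∫ x in E, divg T x)

/-- The `K`-Cheeger constant `h_K(Ω)`. -/
noncomputable def cheeger {N : ℕ} (K Ω : Set (Fin N → ℝ)) : ℝ≥0∞ :=
  ⨅ (E : Set (Fin N → ℝ)) (_ : MeasurableSet E ∧ E ⊆ Ω ∧ 0 < volume E), perim K E / volume E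

/-- The functional `J_Ω[K] = h_K(Ω) |K°|^{1/N}`. -/
noncomputable def J {N : ℕ} (Ω K : Set (Fin N → ℝ)) : ℝ≥0∞ :=
  cheeger K Ω * volume (polarSet K) ^ (1 / (N : ℝ))

section
variable {N : ℕ}

lemma IsBody.zero_mem {K : Set (Fin N → ℝ)} (hK : IsBody K) : (0 : Fin N → ℝ) ∈ K := by
  obtain ⟨x, hx⟩ := hK.nonempty
  have h := hK.convex hx (hK.symm x hx) (a := 1 / 2) (b := 1 / 2) (by norm_num) (by norm_num)
    (by norm_num)
  simpa using h

lemma IsBody.smul_mem {K : Set (Fin N → ℝ)} (hK : IsBody K) {x : Fin N → ℝ} (hx : x ∈ K) {c : ℝ}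
    (hc : |c| ≤ 1) : c • x ∈ K := by
  have key : ∀ (c : ℝ) (y : Fin N → ℝ), y ∈ K → 0 ≤ c → c ≤ 1 → c • y ∈ K := fun c y hy h0 h1 =>
    hK.convex.smul_mem_of_zero_mem hK.zero_mem hy ⟨h0, h1⟩
  rcases le_total 0 c with h | h
  · exact key c x hx h (by rwa [abs_of_nonneg h] at hc)
  · have := key (-c) (-x) (hK.symm x hx) (by linarith) (by rwa [abs_of_nonpos h] at hc)
    simpa using this

/-- Monotonicity and homogeneity of the perimeter. -/
lemma perim_le {K K' E : Set (Fin N → ℝ)} {s : ℝ} (hs : 0 < s) (h : ∀ x ∈ K, s⁻¹ • x ∈ K') :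
    perim K E ≤ ENNReal.ofReal s * perim K' E := by
  refine iSup₂_le fun T hT => ?_
  obtain ⟨h1, h2, h3⟩ := hT
  have e : ∫ x in E, divg T x = s * ∫ x in E, divg (fun x => s⁻¹ • T x) x := by
    rw [← integral_const_mul]
    congr 1
    funext x
    have : fderiv ℝ (fun x => s⁻¹ • T x) x = s⁻¹ • fderiv ℝ T x := by
      rw [fderiv_fun_const_smul (h1.differentiable (by norm_num) x)]
    simp only [divg, this]
    rw [Finset.mul_sum]
    refine Finset.sum_congr rfl fun i _ => ?_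
    simp only [smul_apply, Pi.smul_apply, smul_eq_mul]
    field_simp
  rw [e, ENNReal.ofReal_mul hs.le]
  refine mul_le_mul_right ?_ _
  refine le_iSup₂_of_le (fun x => s⁻¹ • T x) ⟨h1.const_smul _, ?_, fun x => ?_⟩ le_rfl
  · exact h2.smul_left (f := fun _ => s⁻¹)
  · have hc : Continuous (fun y : Fin N → ℝ => s⁻¹ • y) := continuous_const_smul _
    exact map_mem_closure hc (h3 x) h

lemma cheeger_le {K K' Ω : Set (Fin N → ℝ)} {s : ℝ} (hs : 0 < s) (h : ∀ x ∈ K, s⁻¹ • x ∈ K') :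
    cheeger K Ω ≤ ENNReal.ofReal s * cheeger K' Ω := by
  rw [cheeger, cheeger, ENNReal.mul_iInf_of_ne (by simpa using hs) ENNReal.ofReal_ne_top]
  refine le_iInf fun E => ?_
  rw [ENNReal.mul_iInf_of_ne (by simpa using hs) ENNReal.ofReal_ne_top]
  refine le_iInf fun hE => ?_
  refine (iInf₂_le E hE).trans ?_
  rw [← mul_div_assoc]
  exact ENNReal.div_le_div_right (perim_le hs h) _

lemma vol_polar_le {K K' : Set (Fin N → ℝ)} {t : ℝ} (ht : 0 < t) (h : ∀ x ∈ K', t⁻¹ • x ∈ K) :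
    volume (polarSet K) ≤ ENNReal.ofReal (t ^ N) * volume (polarSet K') := by
  have h1 : polarSet K ⊆ t • polarSet K' := by
    intro x hx
    refine ⟨t⁻¹ • x, fun y hy => ?_, by simp [smul_smul, ht.ne']⟩
    have := hx _ (h y hy)
    simpa [smul_dotProduct, dotProduct_smul] using this
  refine (measure_mono h1).trans ?_
  rw [Measure.addHaar_smul, Module.finrank_fin_fun, abs_of_pos (by positivity)]

/-- Comparison of `J`. -/
lemma J_le (hN : N ≠ 0) {K K' Ω : Set (Fin N → ℝ)} {s t : ℝ} (hs : 0 < s) (ht : 0 < t)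
    (h : ∀ x ∈ K, s⁻¹ • x ∈ K') (h' : ∀ x ∈ K', t⁻¹ • x ∈ K) :
    J Ω K ≤ ENNReal.ofReal (s * t) * J Ω K' := by
  have h1 := cheeger_le (Ω := Ω) hs h
  have h2 := vol_polar_le ht h'
  have h3 : volume (polarSet K) ^ (1 / (N : ℝ))
      ≤ ENNReal.ofReal t * volume (polarSet K') ^ (1 / (N : ℝ)) := by
    refine (ENNReal.rpow_le_rpow h2 (by positivity)).trans ?_
    rw [ENNReal.mul_rpow_of_nonneg _ _ (by positivity), ENNReal.ofReal_rpow_of_pos (by positivity)]
    have : (t ^ N) ^ (1 / (N : ℝ)) = t := by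
      rw [one_div]
      exact Real.pow_rpow_inv_natCast ht.le hN
    rw [this]
  calc J Ω K ≤ (ENNReal.ofReal s * cheeger K' Ω)
        * (ENNReal.ofReal t * volume (polarSet K') ^ (1 / (N : ℝ))) := mul_le_mul' h1 h3
    _ = ENNReal.ofReal (s * t) * J Ω K' := by
      rw [ENNReal.ofReal_mul hs.le, J]; ring

/-- The Cheeger constant is bounded below when `K` contains a long vector. -/
lemma cheeger_lower {Ω : Set (Fin N → ℝ)} {R : ℝ} (hR : 0 < R) (hΩ : Ω ⊆ ball 0 R)
    {K : Set (Fin N → ℝ)} (hK : IsBody K) {e : Fin N → ℝ} (he : e ∈ K) {i : Fin N}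
    (hei : 1 / 2 ≤ |e i|) : ENNReal.ofReal (1 / (4 * R)) ≤ cheeger K Ω := by
  -- we may assume `e i > 0`
  wlog hpos : 0 ≤ e i generalizing e
  · refine this (e := -e) (hK.symm e he) (by simpa using hei) ?_
    simp only [Pi.neg_apply]
    linarith
  rw [abs_of_nonneg hpos] at hei
  refine le_iInf₂ fun E hE => ?_
  obtain ⟨hEm, hEΩ, hE0⟩ := hE
  have hEtop : volume E ≠ ∞ := (measure_mono (hEΩ.trans hΩ)).trans_lt measure_ball_lt_top |>.ne
  rw [ENNReal.le_div_iff_mul_le (Or.inl hE0.ne') (Or.inl hEtop)]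
  let χ : ContDiffBump (0 : Fin N → ℝ) := ⟨R, 2 * R, hR, by linarith⟩
  set c : (Fin N → ℝ) → ℝ := fun x => χ x * (x i / (2 * R)) with hc
  have hcs : ContDiff ℝ 1 c := by
    have h1 : ContDiff ℝ 1 (fun x => χ x) := χ.contDiff
    have h2 : ContDiff ℝ 1 (fun x : Fin N → ℝ => x i / (2 * R)) := by fun_prop
    exact h1.mul h2
  have hcb : ∀ x, |c x| ≤ 1 := by
    intro x
    by_cases hx : x ∈ ball (0 : Fin N → ℝ) (2 * R)
    · rw [hc]
      simp only
      rw [abs_mul, abs_of_nonneg χ.nonneg]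
      have h1 : χ x ≤ 1 := χ.le_one
      have h2 : |x i / (2 * R)| ≤ 1 := by
        rw [abs_div, abs_of_pos (by positivity : 0 < 2 * R), div_le_one (by positivity)]
        have : ‖x i‖ ≤ ‖x‖ := norm_le_pi_norm x i
        rw [Real.norm_eq_abs] at this
        exact this.trans (mem_ball_zero_iff.1 hx).le
      calc χ x * |x i / (2 * R)| ≤ 1 * 1 := mul_le_mul h1 h2 (abs_nonneg _) zero_le_one
        _ = 1 := one_mul 1
    · have : χ x = 0 := by
        refine χ.zero_of_le_dist ?_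
        simpa using hx
      simp [hc, this]
  set T : (Fin N → ℝ) → (Fin N → ℝ) := fun x => c x • e with hT
  have hTd : ∀ x ∈ ball (0 : Fin N → ℝ) R, divg T x = e i / (2 * R) := by
    intro x hx
    have h1 : T =ᶠ[𝓝 x] fun y => (y i / (2 * R)) • e := by
      filter_upwards [isOpen_ball.mem_nhds hx] with y hy
      have : χ y = 1 := χ.one_of_mem_closedBall (ball_subset_closedBall hy)
      simp [hT, hc, this]
    have h2 : HasFDerivAt (fun y : Fin N → ℝ => (y i / (2 * R)) • e)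
        (((2 * R)⁻¹ • ContinuousLinearMap.proj (R := ℝ) (φ := fun _ : Fin N => ℝ) i).smulRight e) x := by
      have h3 : HasFDerivAt (fun y : Fin N → ℝ => y i / (2 * R))
          ((2 * R)⁻¹ • ContinuousLinearMap.proj (R := ℝ) (φ := fun _ : Fin N => ℝ) i) x := by
        have := ((ContinuousLinearMap.proj (R := ℝ) (φ := fun _ : Fin N => ℝ) i).hasFDerivAt
          (x := x)).const_smul ((2 * R)⁻¹)
        refine this.congr_of_eventuallyEq (Eventually.of_forall fun y => ?_)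
        simp [div_eq_inv_mul]
      exact h3.smul_const e
    rw [divg, h1.fderiv_eq, h2.fderiv]
    simp only [ContinuousLinearMap.smulRight_apply, smul_apply,
      ContinuousLinearMap.proj_apply, Pi.smul_apply, smul_eq_mul, Pi.single_apply]
    rw [Finset.sum_eq_single i]
    · simp; ring
    · intro j _ hj
      simp [hj.symm]
    · simp
  have hTc : HasCompactSupport T := by
    refine HasCompactSupport.intro (isCompact_closedBall (0 : Fin N → ℝ) (2 * R)) fun x hx => ?_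
    have : χ x = 0 := by
      refine χ.zero_of_le_dist ?_
      simp only [mem_closedBall, not_le] at hx
      exact hx.le
    simp [hT, hc, this]
  have hTs : ContDiff ℝ 1 T := hcs.smul contDiff_const
  have hTK : ∀ x, T x ∈ closure K := fun x => subset_closure (hK.smul_mem he (hcb x))
  have hlow : ENNReal.ofReal (∫ x in E, divg T x) ≤ perim K E :=
    le_iSup₂ (f := fun (T : (Fin N → ℝ) → (Fin N → ℝ)) (_ : ContDiff ℝ 1 T ∧
      HasCompactSupport T ∧ ∀ x, T x ∈ closure K) => ENNReal.ofReal (∫ x in E, divg T x))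
      T ⟨hTs, hTc, hTK⟩
  refine le_trans ?_ hlow
  have h5 : ∫ x in E, divg T x = ∫ _x in E, e i / (2 * R) :=
    setIntegral_congr_fun hEm fun x hx => hTd x (hΩ (hEΩ hx))
  rw [h5, setIntegral_const, smul_eq_mul, ENNReal.ofReal_mul measureReal_nonneg, measureReal_def,
    ENNReal.ofReal_toReal hEtop, mul_comm]
  refine mul_le_mul_right (ENNReal.ofReal_le_ofReal ?_) _
  rw [div_le_div_iff₀ (by positivity) (by positivity)]
  nlinarith

/-- Bound for the dot product by the sup norm. -/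
lemma dot_le (x y : Fin N → ℝ) : |x ⬝ᵥ y| ≤ N * (‖x‖ * ‖y‖) := by
  unfold dotProduct
  refine (Finset.abs_sum_le_sum_abs _ _).trans ?_
  have : ∀ i ∈ Finset.univ, |x i * y i| ≤ ‖x‖ * ‖y‖ := by
    intro i _
    rw [abs_mul]
    exact mul_le_mul (norm_le_pi_norm x i) (norm_le_pi_norm y i) (abs_nonneg _) (norm_nonneg _)
  refine (Finset.sum_le_card_nsmul _ _ _ this).trans ?_
  simp

/-- The volume of the polar is large when it contains a long vector. -/
lemma vol_polar_lower (hN : N ≠ 0) {K : Set (Fin N → ℝ)} (hK1 : ∀ x ∈ K, ‖x‖ ≤ 1)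
    {x₀ : Fin N → ℝ} (hx : x₀ ∈ polarSet K) {m : ℕ}
    (hm : 2 * m / (N : ℝ) ≤ ‖x₀‖) :
    (m : ℝ≥0∞) * ENNReal.ofReal ((1 / N) ^ N) ≤ volume (polarSet K) := by
  have hN0 : (0 : ℝ) < N := by positivity
  rcases Nat.eq_zero_or_pos m with rfl | hm0
  · simp
  have hm0' : (0 : ℝ) < m := by exact_mod_cast hm0
  -- the balls
  set B : ℕ → Set (Fin N → ℝ) := fun k => ball (((k : ℝ) / (2 * m)) • x₀) (1 / (2 * N)) with hB
  have hsub : ∀ k ∈ Finset.range m, B k ⊆ polarSet K := by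
    intro k hk z hz y hy
    have hk' : (k : ℝ) < m := by exact_mod_cast Finset.mem_range.1 hk
    have h1 : z ⬝ᵥ y = ((k : ℝ) / (2 * m)) * (x₀ ⬝ᵥ y) + (z - ((k : ℝ) / (2 * m)) • x₀) ⬝ᵥ y := by
      rw [sub_dotProduct, smul_dotProduct, smul_eq_mul]; ring
    have h2 : x₀ ⬝ᵥ y < 1 := hx y hy
    have h3 : |(z - ((k : ℝ) / (2 * m)) • x₀) ⬝ᵥ y| < 1 / 2 := by
      refine (dot_le _ _).trans_lt ?_
      have h4 : ‖z - ((k : ℝ) / (2 * m)) • x₀‖ < 1 / (2 * N) := by
        rw [← dist_eq_norm]; exact hz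
      have h5 := hK1 y hy
      have h6 : ‖z - ((k : ℝ) / (2 * m)) • x₀‖ * ‖y‖ ≤ ‖z - ((k : ℝ) / (2 * m)) • x₀‖ :=
        mul_le_of_le_one_right (norm_nonneg _) h5
      calc (N : ℝ) * (‖z - ((k : ℝ) / (2 * m)) • x₀‖ * ‖y‖)
          ≤ N * ‖z - ((k : ℝ) / (2 * m)) • x₀‖ := mul_le_mul_of_nonneg_left h6 hN0.le
        _ < N * (1 / (2 * N)) := mul_lt_mul_of_pos_left h4 hN0
        _ = 1 / 2 := by field_simp
    have h7 : (k : ℝ) / (2 * m) ≤ 1 / 2 := by
      rw [div_le_div_iff₀ (by positivity) (by norm_num)]; linarith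
    have h8 : 0 ≤ (k : ℝ) / (2 * m) := by positivity
    have h9 : ((k : ℝ) / (2 * m)) * (x₀ ⬝ᵥ y) ≤ 1 / 2 := by
      rcases le_total 0 (x₀ ⬝ᵥ y) with h | h
      · nlinarith
      · nlinarith
    rw [h1]
    linarith [(abs_lt.1 h3).2]
  have hdisj : (Finset.range m : Set ℕ).PairwiseDisjoint B := by
    intro k _ l _ hkl
    refine ball_disjoint_ball ?_
    rw [dist_eq_norm, ← sub_smul, norm_smul, Real.norm_eq_abs, ← sub_div, abs_div,
      abs_of_pos (by positivity : (0 : ℝ) < 2 * m)]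
    have h1 : (1 : ℝ) ≤ |(k : ℝ) - l| := by
      have : (1 : ℤ) ≤ |(k : ℤ) - l| := Int.one_le_abs (sub_ne_zero.2 (by exact_mod_cast hkl))
      exact_mod_cast this
    calc 1 / (2 * (N : ℝ)) + 1 / (2 * N) = 1 / (2 * m) * (2 * m / N) := by field_simp; norm_num
      _ ≤ |(k : ℝ) - l| / (2 * m) * ‖x₀‖ := by
        refine mul_le_mul (div_le_div_of_nonneg_right h1 (by positivity)) hm (by positivity)
          (by positivity)
  calc (m : ℝ≥0∞) * ENNReal.ofReal ((1 / N) ^ N) = ∑ k ∈ Finset.range m, volume (B k) := by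
        have : ∀ k ∈ Finset.range m, volume (B k) = ENNReal.ofReal ((1 / N) ^ N) := by
          intro k _
          rw [hB]
          simp only
          rw [Real.volume_pi_ball _ (by positivity), Fintype.card_fin]
          congr 2
          field_simp
        rw [Finset.sum_congr rfl this]
        simp
    _ = volume (⋃ k ∈ Finset.range m, B k) :=
        (measure_biUnion_finset hdisj fun k _ => measurableSet_ball).symm
    _ ≤ volume (polarSet K) := measure_mono (iUnion₂_subset hsub)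

/-- If all points of the polar have norm at most `L`, then `K` contains a ball. -/
lemma ball_subset (hN : N ≠ 0) {K : Set (Fin N → ℝ)} (hK : IsBody K) {L : ℝ} (hL : 0 < L)
    (h : ∀ x ∈ polarSet K, ‖x‖ ≤ L) : ball 0 (1 / (N * L)) ⊆ K := by
  have hN0 : (0 : ℝ) < N := by positivity
  intro y hy
  by_contra hyK
  obtain ⟨f, hf⟩ := geometric_hahn_banach_open_point hK.convex hK.isOpen hyK
  have hf0 : 0 < f y := by simpa using hf 0 hK.zero_mem
  set x : Fin N → ℝ := fun i => f (Pi.single i 1) / f y with hx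
  have hdot : ∀ z : Fin N → ℝ, x ⬝ᵥ z = f z / f y := by
    intro z
    have h1 : f z = ∑ i, z i * f (Pi.single i 1) := by
      conv_lhs => rw [← Finset.univ_sum_single z]
      rw [map_sum]
      refine Finset.sum_congr rfl fun i _ => ?_
      have : (Pi.single i (z i) : Fin N → ℝ) = z i • Pi.single i 1 := by
        rw [← Pi.single_smul]; simp
      rw [this, map_smul, smul_eq_mul]
    rw [h1, dotProduct, Finset.sum_div]
    refine Finset.sum_congr rfl fun i _ => ?_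
    rw [hx]; ring
  have hxp : x ∈ polarSet K := fun z hz => by
    rw [hdot, div_lt_one hf0]
    exact hf z hz
  have h1 := h x hxp
  have h2 : |x ⬝ᵥ y| ≤ N * (‖x‖ * ‖y‖) := dot_le x y
  rw [hdot, div_self hf0.ne', abs_one] at h2
  have hy' : ‖y‖ < 1 / (N * L) := mem_ball_zero_iff.1 hy
  rw [lt_div_iff₀ (by positivity)] at hy'
  have h3 : ‖x‖ * ‖y‖ ≤ L * ‖y‖ := mul_le_mul_of_nonneg_right h1 (norm_nonneg _)
  nlinarith

/-- Coercivity. -/
lemma coercive (hN : N ≠ 0) {Ω : Set (Fin N → ℝ)} {R : ℝ} (hR : 0 < R) (hΩ : Ω ⊆ ball 0 R)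
    {M : ℝ≥0∞} (hM : M ≠ ∞) : ∃ δ : ℝ, 0 < δ ∧ ∀ K : Set (Fin N → ℝ), IsBody K →
      (∀ x ∈ K, ‖x‖ ≤ 1) → (∃ e ∈ K, 1 / 2 ≤ ‖e‖) → J Ω K ≤ M → ball 0 δ ⊆ K := by
  have hN0 : (0 : ℝ) < N := by positivity
  set c1 : ℝ≥0∞ := ENNReal.ofReal (1 / (4 * R)) with hc1
  set c2 : ℝ≥0∞ := ENNReal.ofReal ((1 / N) ^ N) with hc2
  have h1 : c1 ≠ 0 := by rw [hc1]; simp; positivity
  have h1' : c1 ≠ ∞ := ENNReal.ofReal_ne_top
  have h2 : c2 ≠ 0 := by rw [hc2]; simp; positivity
  have hMN : (M / c1) ^ (N : ℝ) ≠ ∞ :=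
    ENNReal.rpow_ne_top_of_nonneg (by positivity) (ENNReal.div_ne_top hM h1)
  obtain ⟨m, hm⟩ := ENNReal.exists_nat_mul_gt h2 hMN
  have hbig : M < c1 * ((m : ℝ≥0∞) * c2) ^ (1 / (N : ℝ)) := by
    have h3 : M / c1 < ((m : ℝ≥0∞) * c2) ^ (1 / (N : ℝ)) := by
      have := ENNReal.rpow_lt_rpow hm (z := 1 / (N : ℝ)) (by positivity)
      rwa [← ENNReal.rpow_mul, mul_one_div_cancel hN0.ne', ENNReal.rpow_one] at this
    rw [ENNReal.div_lt_iff (Or.inl h1) (Or.inl h1')] at h3
    rwa [mul_comm]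
  set L : ℝ := max (2 * m / N) 1 with hL
  have hL0 : 0 < L := lt_of_lt_of_le one_pos (le_max_right _ _)
  refine ⟨1 / (N * L), by positivity, fun K hK hK1 hKe hJ => ?_⟩
  obtain ⟨e, he, hen⟩ := hKe
  refine ball_subset hN hK hL0 fun x hx => ?_
  by_contra hcon
  rw [not_le] at hcon
  have h4 : 2 * m / (N : ℝ) ≤ ‖x‖ := (le_max_left _ _).trans hcon.le
  have h5 := vol_polar_lower hN hK1 hx h4
  have hei : ∃ i, 1 / 2 ≤ |e i| := by
    by_contra h
    push Not at h
    have := (pi_norm_lt_iff (x := e) (r := 1 / 2) (by norm_num)).2 (fun i => h i)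
    linarith
  obtain ⟨i, hi⟩ := hei
  have h6 := cheeger_lower hR hΩ hK he hi
  have h7 : c1 * ((m : ℝ≥0∞) * c2) ^ (1 / (N : ℝ)) ≤ J Ω K :=
    mul_le_mul' h6 (ENNReal.rpow_le_rpow h5 (by positivity))
  exact absurd (h7.trans hJ) (not_le.2 hbig)

/-- Normalization. -/
lemma normalize (hN : N ≠ 0) (Ω : Set (Fin N → ℝ)) {K : Set (Fin N → ℝ)} (hK : IsBody K) :
    ∃ K' : Set (Fin N → ℝ), IsBody K' ∧ (∀ x ∈ K', ‖x‖ ≤ 1) ∧ (∃ e ∈ K', 1 / 2 ≤ ‖e‖) ∧
      J Ω K' ≤ J Ω K := by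
  set S : Set ℝ := norm '' K with hS
  have hSn : S.Nonempty := hK.nonempty.image _
  have hSb : BddAbove S := by
    obtain ⟨C, hC⟩ := hK.bdd.exists_norm_le
    exact ⟨C, by rintro _ ⟨x, hx, rfl⟩; exact hC x hx⟩
  set r : ℝ := sSup S with hr
  have hle : ∀ x ∈ K, ‖x‖ ≤ r := fun x hx => le_csSup hSb ⟨x, hx, rfl⟩
  have hr0 : 0 < r := by
    obtain ⟨ε, hε, hball⟩ := Metric.isOpen_iff.1 hK.isOpen 0 hK.zero_mem
    have : Nonempty (Fin N) := ⟨⟨0, Nat.pos_of_ne_zero hN⟩⟩
    have h1 : (fun _ => ε / 2 : Fin N → ℝ) ∈ K := hball (by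
      rw [mem_ball_zero_iff, pi_norm_const, Real.norm_eq_abs, abs_of_pos (by positivity)]
      linarith)
    have h2 := hle _ h1
    rw [pi_norm_const, Real.norm_eq_abs, abs_of_pos (by positivity)] at h2
    linarith
  set K' : Set (Fin N → ℝ) := {x | r • x ∈ K} with hK'
  have hb : ∀ x ∈ K', ‖x‖ ≤ 1 := by
    intro x hx
    have := hle _ hx
    rw [norm_smul, Real.norm_eq_abs, abs_of_pos hr0] at this
    nlinarith
  refine ⟨K', ⟨⟨0, ?_⟩, ?_, ?_, ?_, ?_⟩, hb, ?_, ?_⟩
  · rw [hK', mem_ofPred_eq, smul_zero]; exact hK.zero_mem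
  · exact hK.isOpen.preimage (continuous_const_smul r)
  · exact (isBounded_closedBall (x := (0 : Fin N → ℝ)) (r := 1)).subset fun x hx =>
      mem_closedBall_zero_iff.2 (hb x hx)
  · exact hK.convex.smul_preimage r
  · intro x hx
    rw [hK', mem_ofPred_eq, smul_neg]
    exact hK.symm _ hx
  · obtain ⟨_, ⟨y, hy, rfl⟩, hyr⟩ := exists_lt_of_lt_csSup hSn (show r / 2 < sSup S by linarith)
    refine ⟨r⁻¹ • y, ?_, ?_⟩
    · rw [hK', mem_ofPred_eq, smul_smul, mul_inv_cancel₀ hr0.ne', one_smul]; exact hy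
    · rw [norm_smul, norm_inv, Real.norm_eq_abs, abs_of_pos hr0, inv_mul_eq_div,
        div_le_div_iff₀ (by norm_num) hr0]
      linarith
  · have := J_le (Ω := Ω) hN (K := K') (K' := K) (s := r⁻¹) (t := r) (by positivity) hr0
      (fun x hx => by rw [inv_inv]; exact hx)
      (fun x hx => by
        rw [hK', mem_ofPred_eq, smul_smul, mul_inv_cancel₀ hr0.ne', one_smul]; exact hx)
    rwa [inv_mul_cancel₀ hr0.ne', ENNReal.ofReal_one, one_mul] at this

/-- The gauge of a body between two balls. -/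
lemma gauge_facts {K : Set (Fin N → ℝ)} (hK : IsBody K) {δ : ℝ} (hδ : 0 < δ)
    (h1 : ball 0 δ ⊆ K) (h2 : ∀ x ∈ K, ‖x‖ ≤ 1) :
    (∀ x, ‖x‖ ≤ gauge K x) ∧ (∀ x, gauge K x ≤ ‖x‖ / δ) ∧
      (∀ x y, gauge K (x + y) ≤ gauge K x + gauge K y) ∧
      (∀ (c : ℝ) x, 0 ≤ c → gauge K (c • x) = c * gauge K x) ∧
      (∀ x, gauge K (-x) = gauge K x) ∧ {x | gauge K x < 1} = K := by
  have habs : Absorbent ℝ K := (absorbent_ball_zero hδ).mono h1
  refine ⟨fun x => ?_, fun x => ?_, gauge_add_le hK.convex habs, fun c x hc => ?_,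
    gauge_neg hK.symm, setOfPred_gauge_lt_one_eq_self_of_isOpen hK.convex hK.zero_mem hK.isOpen⟩
  · have := le_gauge_of_subset_closedBall (x := x) habs zero_le_one
      (fun x hx => mem_closedBall_zero_iff.2 (h2 x hx))
    simpa using this
  · rw [le_div_iff₀ hδ, mul_comm]
    exact mul_gauge_le_norm h1
  · rw [gauge_smul_of_nonneg hc, smul_eq_mul]

/-- Compactness: along an ultrafilter, normalized bodies converge. -/
lemma limit_body {K : ℕ → Set (Fin N → ℝ)} (hK : ∀ n, IsBody (K n)) {δ : ℝ} (hδ : 0 < δ)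
    (h1 : ∀ n, ball 0 δ ⊆ K n) (h2 : ∀ n, ∀ x ∈ K n, ‖x‖ ≤ 1) (U : Ultrafilter ℕ) :
    ∃ Kh : Set (Fin N → ℝ), IsBody Kh ∧ ∀ η : ℝ, 0 < η → ∀ᶠ n in (U : Filter ℕ),
      (∀ x ∈ Kh, (1 + η)⁻¹ • x ∈ K n) ∧ (∀ x ∈ K n, (1 + η)⁻¹ • x ∈ Kh) := by
  have hf := fun n => gauge_facts (hK n) hδ (h1 n) (h2 n)
  have hlim : ∀ x : Fin N → ℝ, ∃ y, Tendsto (fun n => gauge (K n) x) U (𝓝 y) := by
    intro x
    obtain ⟨y, -, hy⟩ := (isCompact_Icc (a := ‖x‖) (b := ‖x‖ / δ)).ultrafilter_le_nhds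
      (U.map fun n => gauge (K n) x) (by
        rw [le_principal_iff]
        refine Filter.mem_map.2 (Filter.univ_mem' fun n => ?_)
        exact ⟨(hf n).1 x, (hf n).2.1 x⟩)
    exact ⟨y, hy⟩
  choose G hG using hlim
  have G1 : ∀ x, ‖x‖ ≤ G x := fun x => ge_of_tendsto' (hG x) fun n => (hf n).1 x
  have G2 : ∀ x, G x ≤ ‖x‖ / δ := fun x => le_of_tendsto' (hG x) fun n => (hf n).2.1 x
  have G3 : ∀ x y, G (x + y) ≤ G x + G y := fun x y =>
    le_of_tendsto_of_tendsto' (hG _) ((hG x).add (hG y)) fun n => (hf n).2.2.1 x y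
  have G4 : ∀ (c : ℝ) x, 0 ≤ c → G (c • x) = c * G x := fun c x hc =>
    tendsto_nhds_unique (hG (c • x)) (((hG x).const_mul c).congr fun n =>
      ((hf n).2.2.2.1 c x hc).symm)
  have G5 : ∀ x, G (-x) = G x := fun x =>
    tendsto_nhds_unique (hG (-x)) ((hG x).congr fun n => ((hf n).2.2.2.2.1 x).symm)
  -- Lipschitz bounds
  have lip : ∀ g : (Fin N → ℝ) → ℝ, (∀ x, g x ≤ ‖x‖ / δ) → (∀ x y, g (x + y) ≤ g x + g y) →
      (∀ x, g (-x) = g x) → ∀ x y, |g x - g y| ≤ ‖x - y‖ / δ := by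
    intro g a1 a2 a3 x y
    have b1 := a2 (x - y) y
    have b2 := a2 (y - x) x
    rw [sub_add_cancel] at b1 b2
    have b3 : g (y - x) = g (x - y) := by rw [← a3 (x - y), neg_sub]
    have b4 := a1 (x - y)
    rw [abs_le]; constructor <;> linarith
  have lipG := lip G G2 G3 G5
  have lipg := fun n => lip (gauge (K n)) (hf n).2.1 (hf n).2.2.1 (hf n).2.2.2.2.1
  have hGc : Continuous G := by
    have : LipschitzWith (Real.toNNReal δ⁻¹) G := LipschitzWith.of_dist_le_mul fun x y => by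
      rw [Real.dist_eq, dist_eq_norm, Real.coe_toNNReal _ (by positivity)]
      have := lipG x y
      rwa [div_eq_inv_mul] at this
    exact this.continuous
  -- uniform convergence
  have unif : ∀ η : ℝ, 0 < η → ∀ᶠ n in (U : Filter ℕ), ∀ x, |gauge (K n) x - G x| ≤ η * ‖x‖ := by
    intro η hη
    obtain ⟨F, -, hFf, hF⟩ := (isCompact_sphere (0 : Fin N → ℝ) 1).finite_cover_balls
      (e := η * δ / 3) (by positivity)
    have hev : ∀ᶠ n in (U : Filter ℕ), ∀ p ∈ F, |gauge (K n) p - G p| < η / 3 := by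
      rw [Filter.eventually_all_finite hFf]
      intro p _
      have := Metric.tendsto_nhds.1 (hG p) (η / 3) (by positivity)
      simpa [Real.dist_eq] using this
    filter_upwards [hev] with n hn x
    have sph : ∀ u : Fin N → ℝ, ‖u‖ = 1 → |gauge (K n) u - G u| ≤ η := by
      intro u hu
      have hu' : u ∈ ⋃ p ∈ F, ball p (η * δ / 3) := hF (by simp [hu])
      obtain ⟨p, hp, hup⟩ := mem_iUnion₂.1 hu'
      rw [mem_ball, dist_eq_norm] at hup
      have b1 := lipg n u p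
      have b2 := lipG u p
      have b3 := hn p hp
      have b4 : ‖u - p‖ / δ ≤ η / 3 := by
        rw [div_le_iff₀ hδ]; linarith
      have b5 : gauge (K n) u - G u
          = (gauge (K n) u - gauge (K n) p) + (gauge (K n) p - G p) - (G u - G p) := by ring
      rw [b5]
      refine (abs_sub _ _).trans ?_
      have b6 := abs_add_le (gauge (K n) u - gauge (K n) p) (gauge (K n) p - G p)
      linarith
    rcases eq_or_ne x 0 with rfl | hx
    · have : G 0 = 0 := by
        have := G4 0 0 le_rfl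
        simpa using this
      simp [this]
    · have hx0 : 0 < ‖x‖ := norm_pos_iff.2 hx
      have e1 : x = ‖x‖ • (‖x‖⁻¹ • x) := by rw [smul_smul, mul_inv_cancel₀ hx0.ne', one_smul]
      have hu : ‖‖x‖⁻¹ • x‖ = 1 := by
        rw [norm_smul, norm_inv, norm_norm, inv_mul_cancel₀ hx0.ne']
      have h3 := sph _ hu
      have e2 : gauge (K n) x = ‖x‖ * gauge (K n) (‖x‖⁻¹ • x) := by
        conv_lhs => rw [e1]
        exact (hf n).2.2.2.1 _ _ hx0.le
      have e3 : G x = ‖x‖ * G (‖x‖⁻¹ • x) := by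
        conv_lhs => rw [e1]
        exact G4 _ _ hx0.le
      rw [e2, e3, ← mul_sub, abs_mul, abs_of_pos hx0, mul_comm η]
      exact mul_le_mul_of_nonneg_left h3 hx0.le
  refine ⟨{x | G x < 1}, ⟨⟨0, ?_⟩, ?_, ?_, ?_, ?_⟩, fun η hη => ?_⟩
  · have := G4 0 0 le_rfl
    rw [mem_ofPred_eq]
    simp at this
    rw [this]; exact one_pos
  · exact isOpen_lt hGc continuous_const
  · exact (isBounded_closedBall (x := (0 : Fin N → ℝ)) (r := 1)).subset fun x hx =>
      mem_closedBall_zero_iff.2 ((G1 x).trans (le_of_lt hx))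
  · intro x hx y hy a b ha hb hab
    rw [mem_ofPred_eq] at hx hy ⊢
    refine (G3 _ _).trans_lt ?_
    rw [G4 a x ha, G4 b y hb]
    rcases ha.eq_or_lt with rfl | ha'
    · have : b = 1 := by linarith
      rw [this]; linarith
    · nlinarith
  · intro x hx
    rw [mem_ofPred_eq] at hx ⊢
    rw [G5]; exact hx
  · have h1η : 0 < 1 + η := by linarith
    filter_upwards [unif η hη] with n hn
    constructor
    · intro x hx
      replace hx : G x < 1 := hx
      rw [← (hf n).2.2.2.2.2, mem_ofPred_eq, (hf n).2.2.2.1 _ _ (by positivity),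
        inv_mul_lt_iff₀ h1η, mul_one]
      have h3 := (abs_le.1 (hn x)).2
      have h4 := G1 x
      nlinarith
    · intro x hx
      rw [← (hf n).2.2.2.2.2, mem_ofPred_eq] at hx
      show G _ < 1
      rw [G4 _ _ (by positivity), inv_mul_lt_iff₀ h1η, mul_one]
      have h3 := (abs_le.1 (hn x)).1
      have h4 := (hf n).1 x
      nlinarith

/-- Existence of a minimizer. -/
lemma exists_min (hN : N ≠ 0) {Ω : Set (Fin N → ℝ)} (hb : Bornology.IsBounded Ω) :
    ∃ Kh : Set (Fin N → ℝ), IsBody Kh ∧ ∀ K, IsBody K → J Ω Kh ≤ J Ω K := by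
  obtain ⟨R, hR, hΩ⟩ := hb.subset_ball_lt 0 0
  have hball : IsBody (ball (0 : Fin N → ℝ) 1) :=
    ⟨⟨0, by simp⟩, isOpen_ball, isBounded_ball, convex_ball _ _, fun x hx => by simpa using hx⟩
  set m : ℝ≥0∞ := ⨅ (K : Set (Fin N → ℝ)) (_ : IsBody K), J Ω K with hm
  have hmle : ∀ K, IsBody K → m ≤ J Ω K := fun K hK => iInf₂_le K hK
  rcases eq_or_ne m ∞ with htop | htop
  · refine ⟨_, hball, fun K hK => ?_⟩
    have := hmle K hK
    rw [htop, top_le_iff] at this
    rw [this]; exact le_top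
  · have hseq : ∀ n : ℕ, ∃ K : Set (Fin N → ℝ), IsBody K ∧ (∀ x ∈ K, ‖x‖ ≤ 1) ∧
        (∃ e ∈ K, 1 / 2 ≤ ‖e‖) ∧ J Ω K ≤ m + ((n : ℝ≥0∞) + 1)⁻¹ := by
      intro n
      have h1 : m < m + ((n : ℝ≥0∞) + 1)⁻¹ := ENNReal.lt_add_right htop (by simp)
      rw [hm] at h1
      obtain ⟨K, hK1⟩ := iInf_lt_iff.1 h1
      obtain ⟨hK, hK2⟩ := iInf_lt_iff.1 hK1
      obtain ⟨K', a1, a2, a3, a4⟩ := normalize hN Ω hK
      exact ⟨K', a1, a2, a3, a4.trans hK2.le⟩
    choose K k1 k2 k3 k4 using hseq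
    have hM1 : m + 1 ≠ ∞ := ENNReal.add_ne_top.2 ⟨htop, ENNReal.one_ne_top⟩
    obtain ⟨δ, hδ, hcoer⟩ := coercive hN hR hΩ hM1
    have kball : ∀ n, ball 0 δ ⊆ K n := fun n => hcoer (K n) (k1 n) (k2 n) (k3 n)
      ((k4 n).trans (add_le_add_right (ENNReal.inv_le_one.2 (by simp)) _))
    obtain ⟨Kh, hKh, hlim⟩ := limit_body k1 hδ kball k2 (hyperfilter ℕ)
    refine ⟨Kh, hKh, fun L hL => le_trans ?_ (hmle L hL)⟩
    have hJt : Tendsto (fun n : ℕ => m + ((n : ℝ≥0∞) + 1)⁻¹) (hyperfilter ℕ : Filter ℕ) (𝓝 m) := by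
      have h1 : Tendsto (fun n : ℕ => ((n : ℝ≥0∞) + 1)⁻¹) atTop (𝓝 0) := by
        have h2 := ENNReal.tendsto_inv_nat_nhds_zero.comp (tendsto_add_atTop_nat 1)
        refine h2.congr fun n => ?_
        simp
      have h3 := h1.const_add m
      rw [add_zero] at h3
      exact h3.mono_left (Nat.hyperfilter_le_atTop)
    have step : ∀ η : ℝ, 0 < η → J Ω Kh ≤ ENNReal.ofReal ((1 + η) * (1 + η)) * m := by
      intro η hη
      have h4 : Tendsto (fun n : ℕ => ENNReal.ofReal ((1 + η) * (1 + η)) * (m + ((n : ℝ≥0∞) + 1)⁻¹))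
          (hyperfilter ℕ : Filter ℕ) (𝓝 (ENNReal.ofReal ((1 + η) * (1 + η)) * m)) :=
        ENNReal.Tendsto.const_mul hJt (Or.inr ENNReal.ofReal_ne_top)
      refine ge_of_tendsto h4 ?_
      filter_upwards [hlim η hη] with n hn
      exact (J_le hN (by positivity) (by positivity) hn.1 hn.2).trans (mul_le_mul_right (k4 n) _)
    have h5 : Tendsto (fun η : ℝ => ENNReal.ofReal ((1 + η) * (1 + η)) * m) (𝓝[>] 0) (𝓝 m) := by
      have h6 : Tendsto (fun η : ℝ => ENNReal.ofReal ((1 + η) * (1 + η))) (𝓝[>] 0) (𝓝 1) := by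
        have : Continuous (fun η : ℝ => ENNReal.ofReal ((1 + η) * (1 + η))) :=
          ENNReal.continuous_ofReal.comp (by fun_prop)
        have h7 := (this.tendsto 0).mono_left (nhdsWithin_le_nhds (s := Ioi 0))
        simpa using h7
      have h8 := ENNReal.Tendsto.mul_const h6 (Or.inr htop)
      rwa [one_mul] at h8
    exact ge_of_tendsto h5 (by filter_upwards [self_mem_nhdsWithin] with η hη using step η hη)

/-- The functional is positive. -/
lemma J_pos (hN : N ≠ 0) {Ω : Set (Fin N → ℝ)} (hb : Bornology.IsBounded Ω)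
    {K : Set (Fin N → ℝ)} (hK : IsBody K) : J Ω K ≠ 0 := by
  have hN0 : (0 : ℝ) < N := by positivity
  obtain ⟨R, hR, hΩ⟩ := hb.subset_ball_lt 0 0
  obtain ⟨K', k1, k2, ⟨e, he, hen⟩, k4⟩ := normalize hN Ω hK
  have hei : ∃ i, 1 / 2 ≤ |e i| := by
    by_contra h
    push Not at h
    have := (pi_norm_lt_iff (x := e) (r := 1 / 2) (by norm_num)).2 (fun i => h i)
    linarith
  obtain ⟨i, hi⟩ := hei
  have h6 := cheeger_lower hR hΩ k1 he hi
  have h7 : cheeger K' Ω ≠ 0 := by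
    intro h
    rw [h, nonpos_iff_eq_zero, ENNReal.ofReal_eq_zero] at h6
    have : 0 < 1 / (4 * R) := by positivity
    linarith
  have h8 : ball (0 : Fin N → ℝ) (1 / N) ⊆ polarSet K' := by
    intro x hx y hy
    have h1 := dot_le x y
    have h2 : ‖x‖ < 1 / N := mem_ball_zero_iff.1 hx
    have h3 := k2 y hy
    have h4 : ‖x‖ * ‖y‖ ≤ ‖x‖ := mul_le_of_le_one_right (norm_nonneg _) h3
    rw [lt_div_iff₀ hN0] at h2
    have h5 := (abs_le.1 h1).2
    nlinarith
  have h9 : volume (polarSet K') ≠ 0 :=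
    ((measure_ball_pos volume (0 : Fin N → ℝ) (by positivity : (0 : ℝ) < 1 / N)).trans_le
      (measure_mono h8)).ne'
  have h10 : J Ω K' ≠ 0 := by
    refine mul_ne_zero h7 ?_
    rw [Ne, ENNReal.rpow_eq_zero_iff]
    push Not
    exact ⟨fun h => absurd h h9, fun _ => by positivity⟩
  intro h
  rw [h, nonpos_iff_eq_zero] at k4
  exact h10 k4

end

/-- Boxes have finite perimeter. -/
lemma perim_box {n : ℕ} {K : Set (Fin (n + 1) → ℝ)} (hK : IsBody K) {a b : Fin (n + 1) → ℝ}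
    (hab : a ≤ b) : perim K (Icc a b) ≠ ∞ := by
  obtain ⟨C, hC⟩ := hK.bdd.exists_norm_le
  have hCc : ∀ x ∈ closure K, ‖x‖ ≤ C := fun x hx =>
    closure_minimal (t := {x | ‖x‖ ≤ C}) hC (isClosed_le continuous_norm continuous_const) hx
  set B : ℝ := ∑ i : Fin (n + 1), (C * (volume (Icc (a ∘ i.succAbove) (b ∘ i.succAbove))).toReal
    + C * (volume (Icc (a ∘ i.succAbove) (b ∘ i.succAbove))).toReal) with hB
  refine ne_top_of_le_ne_top (b := ENNReal.ofReal B) ENNReal.ofReal_ne_top ?_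
  refine iSup₂_le fun T hT => ENNReal.ofReal_le_ofReal ?_
  obtain ⟨h1, h2, h3⟩ := hT
  have hcd : Continuous (fderiv ℝ T) := h1.continuous_fderiv (by norm_num)
  have key := integral_divergence_of_hasFDerivAt_off_countable a b hab T (fderiv ℝ T) ∅
    countable_empty h1.continuous.continuousOn
    (fun x _ => (h1.differentiable (by norm_num) x).hasFDerivAt)
    (by
      refine ContinuousOn.integrableOn_Icc ?_
      refine Continuous.continuousOn ?_
      refine continuous_finsetSum _ fun i _ => ?_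
      exact (continuous_apply i).comp (hcd.clm_apply continuous_const))
  have e : ∫ x in Icc a b, divg T x = ∫ x in Icc a b, ∑ i, fderiv ℝ T x (Pi.single i 1) i := rfl
  rw [e, key, hB]
  refine Finset.sum_le_sum fun i _ => ?_
  have hfin : volume (Icc (a ∘ i.succAbove) (b ∘ i.succAbove)) < ∞ :=
    (isCompact_Icc).measure_lt_top
  have b1 : ‖∫ x in Icc (a ∘ i.succAbove) (b ∘ i.succAbove), T (i.insertNth (b i) x) i‖
      ≤ C * (volume (Icc (a ∘ i.succAbove) (b ∘ i.succAbove))).toReal :=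
    norm_setIntegral_le_of_norm_le_const hfin fun x _ =>
      (norm_le_pi_norm _ i).trans (hCc _ (h3 _))
  have b2 : ‖∫ x in Icc (a ∘ i.succAbove) (b ∘ i.succAbove), T (i.insertNth (a i) x) i‖
      ≤ C * (volume (Icc (a ∘ i.succAbove) (b ∘ i.succAbove))).toReal :=
    norm_setIntegral_le_of_norm_le_const hfin fun x _ =>
      (norm_le_pi_norm _ i).trans (hCc _ (h3 _))
  rw [Real.norm_eq_abs] at b1 b2
  have c1 := (abs_le.1 b1).2
  have c2 := (abs_le.1 b2).1
  linarith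

/-- The functional is finite. -/
lemma J_finite {n : ℕ} {Ω K : Set (Fin (n + 1) → ℝ)} (ho : IsOpen Ω) (hne : Ω.Nonempty)
    (hK : IsBody K) : J Ω K ≠ ∞ := by
  obtain ⟨x, hx⟩ := hne
  obtain ⟨ε, hε, hball⟩ := Metric.isOpen_iff.1 ho x hx
  set r : ℝ := ε / 2 with hr
  have hr0 : 0 < r := by positivity
  have hbox : Icc (x - fun _ => r) (x + fun _ => r) = closedBall x r := by
    ext y
    rw [mem_closedBall, dist_pi_le_iff hr0.le, mem_Icc, Pi.le_def, Pi.le_def]
    constructor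
    · rintro ⟨h1, h2⟩ i
      rw [Real.dist_eq, abs_le]
      have := h1 i
      have := h2 i
      simp only [Pi.sub_apply, Pi.add_apply] at *
      constructor <;> linarith
    · intro h
      constructor <;> intro i <;> have := h i <;> rw [Real.dist_eq, abs_le] at this <;>
        simp only [Pi.sub_apply, Pi.add_apply] <;> linarith [this.1, this.2]
  have hab : (x - fun _ => r) ≤ (x + fun _ => r) := by
    intro i
    simp only [Pi.sub_apply, Pi.add_apply]
    linarith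
  have hp := perim_box hK hab
  rw [hbox] at hp
  have hsub : closedBall x r ⊆ Ω := (closedBall_subset_ball (by rw [hr]; linarith)).trans hball
  have hvol : 0 < volume (closedBall x r) := measure_closedBall_pos _ _ hr0
  have h1 : cheeger K Ω ≤ perim K (closedBall x r) / volume (closedBall x r) :=
    iInf₂_le (f := fun (E : Set (Fin (n + 1) → ℝ)) (_ : MeasurableSet E ∧ E ⊆ Ω ∧ 0 < volume E) =>
      perim K E / volume E) _ ⟨measurableSet_closedBall, hsub, hvol⟩
  have h2 : cheeger K Ω ≠ ∞ := ne_top_of_le_ne_top (ENNReal.div_ne_top hp hvol.ne') h1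
  -- the polar is bounded
  have h3 : volume (polarSet K) ≠ ∞ := by
    obtain ⟨δ, hδ, hδK⟩ := Metric.isOpen_iff.1 hK.isOpen 0 hK.zero_mem
    have h4 : polarSet K ⊆ closedBall 0 (2 / δ) := by
      intro y hy
      rw [mem_closedBall_zero_iff, pi_norm_le_iff_of_nonneg (by positivity)]
      intro i
      have key : ∀ s : ℝ, |s| = 1 → s * y i < 2 / δ := by
        intro s hs
        have hz : (Pi.single i (s * (δ / 2)) : Fin (n + 1) → ℝ) ∈ K := hδK (by
          rw [mem_ball_zero_iff]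
          refine (pi_norm_le_iff_of_nonneg (r := δ / 2) (by positivity)).2 (fun j => ?_) |>.trans_lt
            (by linarith)
          rcases eq_or_ne j i with rfl | hj
          · rw [Pi.single_eq_same, Real.norm_eq_abs, abs_mul, hs, one_mul, abs_of_pos (by positivity)]
          · rw [Pi.single_eq_of_ne hj, norm_zero]; positivity)
        have := hy _ hz
        rw [dotProduct_single] at this
        rw [lt_div_iff₀ hδ]
        linarith
      rw [Real.norm_eq_abs, abs_le]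
      have a1 := key 1 (by norm_num)
      have a2 := key (-1) (by norm_num)
      constructor <;> linarith
    exact ((measure_mono h4).trans_lt measure_closedBall_lt_top).ne
  exact ENNReal.mul_ne_top h2 (ENNReal.rpow_ne_top_of_nonneg (by positivity) h3)

/-- **Q1 of MP_302605_an, answered affirmatively, in every dimension.** For every open bounded
non-empty `Ω ⊂ ℝᴺ` (convex or not), `N ≥ 1`, the functional `J_Ω[K] = h_K(Ω) |K°|^{1/N}` attains
its infimum over `𝒦_N`; the minimum is positive and finite. -/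
theorem result {N : ℕ} (hN : 1 ≤ N) {Ω : Set (Fin N → ℝ)} (ho : IsOpen Ω)
    (hb : Bornology.IsBounded Ω) (hne : Ω.Nonempty) :
    ∃ Kh : Set (Fin N → ℝ), IsBody Kh ∧ (∀ K, IsBody K → J Ω Kh ≤ J Ω K) ∧
      J Ω Kh ≠ 0 ∧ J Ω Kh ≠ ∞ := by
  obtain ⟨Kh, h1, h2⟩ := exists_min (by omega) hb
  refine ⟨Kh, h1, h2, J_pos (by omega) hb h1, ?_⟩
  obtain ⟨n, rfl⟩ : ∃ n, N = n + 1 := ⟨N - 1, by omega⟩
  exact J_finite ho hne h1

end Pool.Agent.Results.MP_302605_an.CheegerMinimizer
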